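import Pool.Agent.helper47.MSW.SpecC

/-!
# Row msw:DCS (MP_a87880_co): decreasing sets
-/

set_option autoImplicit false

noncomputable section

namespace Pool.Agent.MSW

open Equiv Finset Function MeasureTheory Pool.Agent.helper48.PP
open Pool.Agent.DSW (Pr Has GP wt)
open scoped ENNReal Classical

theorem DCS_inj (S : Finset Pt) (h : DcS S) : Set.InjOn Prod.fst (S : Set Pt) := by
  intro u hu v hv huv
  exact h.1 u hu v hv (Or.inl huv)

theorem DCS_enum (S : Finset Pt) (h : DcS S) (n : ℕ) (hn : S.card = n) :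
    ∃ x y : Fin n → ℕ, StrictMono x ∧ StrictMono y ∧ S = Finset.univ.image fun i => (x i, y (Fin.rev i)) := by
  have hA : (S.image Prod.fst).card = n := by
    rw [Finset.card_image_of_injOn (DCS_inj S h), hn]
  have hex : ∀ i : Fin n, ∃ v, ((S.image Prod.fst).orderEmbOfFin hA i, v) ∈ S := by
    intro i
    have h1 := Finset.orderEmbOfFin_mem (S.image Prod.fst) hA i
    obtain ⟨p, hp, hpi⟩ := Finset.mem_image.mp h1
    refine ⟨p.2, ?_⟩
    rw [← hpi]
    exact hp
  choose v hv using hex
  have hx : StrictMono ((S.image Prod.fst).orderEmbOfFin hA) := ((S.image Prod.fst).orderEmbOfFin hA).strictMono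
  refine ⟨(S.image Prod.fst).orderEmbOfFin hA, fun i => v (Fin.rev i), hx, ?_, ?_⟩
  · intro i j hij
    have h1 : Fin.rev j < Fin.rev i := Fin.rev_lt_rev.mpr hij
    exact h.2 _ (hv (Fin.rev j)) _ (hv (Fin.rev i)) (hx h1)
  · ext p
    constructor
    · intro hp
      have h1 : p.1 ∈ S.image Prod.fst := Finset.mem_image_of_mem _ hp
      have h2 : p.1 ∈ Set.range ((S.image Prod.fst).orderEmbOfFin hA) := by
        rw [Finset.range_orderEmbOfFin]
        exact h1
      obtain ⟨i, hi⟩ := h2
      refine Finset.mem_image.mpr ⟨i, Finset.mem_univ _, ?_⟩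
      simp only [Fin.rev_rev]
      exact h.1 _ (hv i) p hp (Or.inl hi)
    · intro hp
      obtain ⟨i, -, hi⟩ := Finset.mem_image.mp hp
      simp only [Fin.rev_rev] at hi
      rw [← hi]
      exact hv i

theorem DCS_fst {n : ℕ} (x y : Fin n → ℕ) :
    (↑((Finset.univ.image fun i : Fin n => (x i, y (Fin.rev i))).image Prod.fst) : Set ℕ) = Set.range x := by
  rw [Finset.image_image]
  simp [Function.comp_def]

theorem DCS_snd {n : ℕ} (x y : Fin n → ℕ) :
    (↑((Finset.univ.image fun i : Fin n => (x i, y (Fin.rev i))).image Prod.snd) : Set ℕ) = Set.range y := by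
  rw [Finset.image_image]
  ext t
  simp only [Function.comp_def, Finset.coe_image, Finset.coe_univ, Set.image_univ, Set.mem_range]
  constructor
  · rintro ⟨i, rfl⟩
    exact ⟨Fin.rev i, rfl⟩
  · rintro ⟨i, rfl⟩
    exact ⟨Fin.rev i, by simp⟩

theorem DCS : DCS_stmt := by
  refine ⟨fun S h => DCS_enum S h S.card rfl, ?_⟩
  intro S S' h h' h1 h2
  have hc : S'.card = S.card := by
    rw [← Finset.card_image_of_injOn (DCS_inj S h), ← Finset.card_image_of_injOn (DCS_inj S' h'), h1]
  obtain ⟨x, y, hx, hy, hS⟩ := DCS_enum S h S.card rfl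
  obtain ⟨x', y', hx', hy', hS'⟩ := DCS_enum S' h' S.card hc
  have e1 : x = x' := by
    rw [← StrictMono.range_inj hx hx', ← DCS_fst x y, ← DCS_fst x' y', ← congrArg (Finset.image Prod.fst) hS, h1, ← congrArg (Finset.image Prod.fst) hS']
  have e2 : y = y' := by
    rw [← StrictMono.range_inj hy hy', ← DCS_snd x y, ← DCS_snd x' y', ← congrArg (Finset.image Prod.snd) hS, h2, ← congrArg (Finset.image Prod.snd) hS']
  rw [hS', ← e1, ← e2]
  exact hS

end Pool.Agent.MSW

end
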