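import Pool.Agent.helper47.MSW.SpecA
import Pool.Agent.helper47.MSW.SpecD

/-!
# Row msw:DIF (MP_a87880_co): a length with fewer avoiders
-/

set_option autoImplicit false

noncomputable section

namespace Pool.Agent.MSW

open Equiv Finset Function MeasureTheory Pool.Agent.helper48.PP
open Pool.Agent.DSW (Pr Has GP wt)
open scoped ENNReal Classical

theorem DIF_le_one (hGEW : GEW_stmt) {k : ℕ} (H : ℕ) (hH : 1 ≤ H) (p : ℝ) (σ : Perm (Fin k)) : Zp H p σ ≤ 1 := by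
  have h5 := (hGEW H hH).2.2.2.2.1
  rw [← h5]
  unfold Zp
  refine ENNReal.tsum_le_tsum fun w => ?_
  calc wt H w.1 * wt H w.2 * Pm p {ω | HP σ ω 0 w} ≤ wt H w.1 * wt H w.2 * 1 := by
        gcongr
        exact prob_le_one
    _ = _ := mul_one _

theorem DIF_ZW_le {k : ℕ} (H : ℕ) (p : ℝ) (σ : Perm (Fin k)) (W : Set ℕ) : ZW H p σ W ≤ Zp H p σ := by
  unfold ZW Zp
  refine ENNReal.tsum_le_tsum fun w => ?_
  exact mul_le_mul' le_rfl (measure_mono fun ω hω => hω.1)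

theorem DIF_arith (a b w w' e : ℝ≥0∞) (ha : a ≠ ⊤) (h1 : a ≤ 2 * w) (h2 : w ≤ w' + e) (h3 : w' ≤ b) (h4 : 4 * b ≤ a) :
    a ≤ 4 * e := by
  have h5 : a + a ≤ 4 * e + a := by
    calc a + a ≤ 2 * w + 2 * w := add_le_add h1 h1
      _ ≤ 2 * (b + e) + 2 * (b + e) := by
        have : w ≤ b + e := h2.trans (by gcongr)
        gcongr
      _ = 4 * e + 4 * b := by ring
      _ ≤ 4 * e + a := by gcongr
  exact (ENNReal.add_le_add_iff_right ha).mp h5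

theorem DIF (hWIN : WIN_stmt) (hLNW : LNW_stmt) (hGEW : GEW_stmt) : DIF_stmt := by
  intro c₀ c₁ hc₀ hc₁
  obtain ⟨K, hK, hW⟩ := hWIN c₀ c₁ hc₀ hc₁
  refine ⟨K, hK, fun θ hθ hθ1 => ?_⟩
  obtain ⟨k₀, hk₀⟩ := hW θ hθ hθ1
  refine ⟨k₀, fun k hk l σ τ hH => ?_⟩
  obtain ⟨H₀, hH₀⟩ := hH
  by_contra hcon
  push Not at hcon
  have hpos : 0 < c₁ * (c₀ * θ) ^ k := by positivity
  obtain ⟨H₁, hH₁⟩ := exists_nat_gt (24 / (c₁ * (c₀ * θ) ^ k))
  set H : ℕ := max (max H₀ H₁) 1 with hHdef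
  have g0 : H₀ ≤ H := (le_max_left _ _).trans (le_max_left _ _)
  have g1 : H₁ ≤ H := (le_max_right _ _).trans (le_max_left _ _)
  have g2 : 1 ≤ H := le_max_right _ _
  obtain ⟨e1, e2⟩ := hH₀ H g0
  have e3 := hk₀ k hk σ H g2 e1
  have e4 := hLNW k l σ τ (Win K θ k) hcon H θ g2 hθ.le hθ1
  have e5 := DIF_ZW_le H (den θ H) τ (Win K θ k)
  have hfin : Zp H (den θ H) σ ≠ ⊤ := ne_top_of_le_ne_top ENNReal.one_ne_top (DIF_le_one hGEW H g2 _ _)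
  have e6 := DIF_arith _ _ _ _ _ hfin e3 e4 e5 e2
  have e7 := e1.trans e6
  have e8 : (4 : ℝ≥0∞) * ENNReal.ofReal (6 / H) = ENNReal.ofReal (24 / H) := by
    have : (4 : ℝ≥0∞) = ENNReal.ofReal 4 := by norm_num
    rw [this, ← ENNReal.ofReal_mul (by norm_num)]
    ring_nf
  rw [e8] at e7
  have hHpos : (0 : ℝ) < H := by exact_mod_cast g2
  have e9 := (ENNReal.ofReal_le_ofReal_iff (by positivity)).mp e7
  rw [le_div_iff₀ hHpos] at e9
  have e10 : (H₁ : ℝ) ≤ H := by exact_mod_cast g1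
  rw [div_lt_iff₀ hpos] at hH₁
  have e11 : (H₁ : ℝ) * (c₁ * (c₀ * θ) ^ k) ≤ H * (c₁ * (c₀ * θ) ^ k) := mul_le_mul_of_nonneg_right e10 hpos.le
  linarith

end Pool.Agent.MSW

end
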